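import Pool.Agent.L0h38.MON.Stm

set_option autoImplicit false

/-!
# Module T43 of project MON: infinite groups of type (4) are of type (3) and simple
-/

namespace Pool.Agent.L0h48.MON

open Pool.Agent.L0h38.MON

theorem T43 : S_T43 := by
  intro _ G _ hinf hT
  obtain ⟨p, hp, h4⟩ := hT
  have hnc : ¬ IsCyclic G := by
    rintro ⟨g, hg⟩
    have h0 : orderOf g = 0 := by
      rw [orderOf_eq_card_of_forall_mem_zpowers hg, Nat.card_eq_zero_of_infinite]
    have h1 : ∀ n : ℕ, 0 < n → g ^ n ≠ 1 := orderOf_eq_zero_iff'.1 h0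
    have h1' : ∀ k : ℤ, g ^ k = 1 → k = 0 := by
      intro k hk
      have h := injective_zpow_iff_not_isOfFinOrder.2 (orderOf_eq_zero_iff.1 h0)
      exact h (a₁ := k) (a₂ := 0) (by simpa using hk)
    have hb : Subgroup.zpowers (g ^ 2) ≠ ⊥ := by
      rw [Ne, Subgroup.zpowers_eq_bot]
      exact h1 2 (by norm_num)
    have ht : Subgroup.zpowers (g ^ 2) ≠ ⊤ := by
      intro h
      have h2 : g ∈ Subgroup.zpowers (g ^ 2) := by
        rw [h]
        exact Subgroup.mem_top _
      obtain ⟨k, hk⟩ := Subgroup.mem_zpowers_iff.1 h2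
      have h3 : g ^ (2 * k - 1) = 1 := by
        rw [zpow_sub, zpow_mul, zpow_one]
        have h5 : (g ^ (2 : ℤ)) ^ k = g := by
          refine Eq.trans ?_ hk
          norm_cast
        rw [h5, mul_inv_cancel]
      have h4' := h1' _ h3
      omega
    have h5 := (h4 _ hb ht).2
    rw [Nat.card_zpowers] at h5
    have h6 : (g ^ 2) ^ p = 1 := by
      rw [← h5]
      exact pow_orderOf_eq_one _
    rw [← pow_mul] at h6
    exact h1 _ (Nat.mul_pos (by norm_num) hp.pos) h6
  have hfin : ∀ H : Subgroup G, H ≠ ⊤ → (H : Set G).Finite := by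
    intro H hH
    by_cases hb : H = ⊥
    · rw [hb]
      simp
    · have h1 := (h4 H hb hH).2
      have h2 : Finite H := Nat.finite_of_card_ne_zero (by rw [h1]; exact hp.ne_zero)
      exact Set.toFinite _
  refine ⟨⟨hnc, fun H hH => ?_⟩, ?_⟩
  · by_cases hb : H = ⊥
    · rw [hb]
      infer_instance
    · exact (h4 H hb hH).1
  · have : Nontrivial G := inferInstance
    refine ⟨fun N hN => ?_⟩
    by_contra hc
    rw [not_or] at hc
    apply hc.2
    rw [eq_top_iff]
    intro h _
    have hz : Subgroup.zpowers h ≠ ⊤ := by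
      intro e
      apply hnc
      refine ⟨h, fun x => ?_⟩
      have hx : x ∈ Subgroup.zpowers h := by
        rw [e]
        exact Subgroup.mem_top _
      exact Subgroup.mem_zpowers_iff.1 hx
    have hA : ((Subgroup.zpowers h ⊔ N : Subgroup G) : Set G).Finite := by
      rw [Subgroup.mul_normal]
      exact (hfin _ hz).mul (hfin N hc.2)
    have hAt : Subgroup.zpowers h ⊔ N ≠ ⊤ := by
      intro e
      rw [e, Subgroup.coe_top] at hA
      exact Set.infinite_univ hA
    have hAb : Subgroup.zpowers h ⊔ N ≠ ⊥ := by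
      intro e
      apply hc.1
      rw [eq_bot_iff, ← e]
      exact le_sup_right
    have hcard : Nat.card (Subgroup.zpowers h ⊔ N : Subgroup G) = Nat.card N := by
      rw [(h4 _ hAb hAt).2, (h4 _ hc.1 hc.2).2]
    have : Finite (Subgroup.zpowers h ⊔ N : Subgroup G) := hA.to_subtype
    have h5 : N = Subgroup.zpowers h ⊔ N :=
      Subgroup.eq_of_le_of_card_ge le_sup_right (le_of_eq hcard)
    rw [h5]
    exact Subgroup.mem_sup_left (Subgroup.mem_zpowers h)

end Pool.Agent.L0h48.MON
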